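import Pool.Agent.W393.VR.Main

/-!
# Amalgams over virtually cyclic subgroups and property (VRC)

Let `P = F false`, `Q = F true` be groups with (VRC) and let `R` be a virtually cyclic group with
injective homomorphisms `φ false : R → P`, `φ true : R → Q`. Then the amalgamated free product
`P *_R Q` has (VRC).

Idea. Choose normal subgroups `P₁ ≤ P`, `Q₁ ≤ Q` of finite index meeting `R` in the same cyclic
group generated by `d`. The amalgam acts on the finite set `I × J × R/⟨d⟩`, where `I` and `J` are the
double coset spaces of `P` and `Q`. For homomorphisms `f` on `P₁` and `h` on `Q₁` to the integers,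
the homomorphisms `h(q_j⁻¹ d q_j) • f` on the `P`-vertex `j` and `f(p_i⁻¹ d p_i) • h` on the
`Q`-vertex `i` agree on all edges `(i, j)` and hence glue to a homomorphism of a subgroup of finite
index. Hyperbolic elements are detected by finite sets made from a cyclic path.
-/

set_option autoImplicit false

namespace Pool.Agent.Results.MP_61a31f_al.AmalgamVRC

open Pool.Agent.W393.VR

theorem result (F : Bool → Type) [∀ i, Group (F i)] (R : Type) [Group R] (φ : ∀ i, R →* F i)
    (hφ : ∀ i, Function.Injective (φ i))
    (hR : ∃ d : R, (Subgroup.zpowers d).FiniteIndex)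
    (hF : ∀ i, VRC (F i)) : VRC (Monoid.PushoutI φ) :=
  main φ hφ hR hF

end Pool.Agent.Results.MP_61a31f_al.AmalgamVRC
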